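import Mathlib

/-! Families with pairwise different union sizes: a padding lemma and the special elements. -/

namespace Pool.Agent.H.MP_6ac4e5_co.A

open Finset

/-- A family of `m` distinct subsets of `Fin n` with pairwise different intersection sizes. -/
def Ex (n m : ℕ) : Prop := ∃ A : Fin m → Finset (Fin n), Function.Injective A ∧
  ∀ i j i' j' : Fin m, i < j → i' < j' → (A i ∩ A j).card = (A i' ∩ A j').card → i = i' ∧ j = j'

theorem pad {α : Type} [DecidableEq α] (n m r : ℕ) (G : ℕ → Finset α) (b : ℕ → ℕ)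
    (e : ℕ → ℕ → ℕ) (Ω : Finset α) (hΩ : ∀ l ≤ m, G l ⊆ Ω) (hr : (Ω \ G m).card ≤ r)
    (he : ∀ l j, l < j → j ≤ m → (G l \ G j).card = e l j) (he1 : ∀ l j, l < j → 1 ≤ e l j)
    (h0 : (G 0).card ≤ b 0)
    (hs : ∀ j < m, (G (j + 1) \ G j).card + b j ≤ b (j + 1) + e j (j + 1))
    (hinj : ∀ l j l' j', l < j → l' < j' → b j + e l j = b j' + e l' j' → l = l' ∧ j = j')
    (hn : b m + r ≤ n) (hn0 : 0 < n) : Ex n (m + 1) := by
  have h1 : ∀ j ≤ m, (G j).card ≤ b j ∧ ∀ l ≤ j, b l - (G l).card ≤ b j - (G j).card := by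
    intro j
    induction j with
    | zero => intro _; exact ⟨h0, fun l hl => by rw [Nat.le_zero.1 hl]⟩
    | succ j ih =>
      intro hj
      obtain ⟨a1, a2⟩ := ih (by omega)
      have a3 := hs j (by omega)
      have a4 := he j (j + 1) (by omega) hj
      have a5 := card_sdiff_add_card_inter (G j) (G (j + 1))
      have a6 := card_sdiff_add_card_inter (G (j + 1)) (G j)
      rw [inter_comm] at a6
      refine ⟨by omega, fun l hl => ?_⟩
      rcases Nat.lt_or_eq_of_le hl with h | h
      · have := a2 l (by omega); omega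
      · rw [h]
  set B : ℕ → Finset (α ⊕ ℕ) := fun l => (G l).disjSum (range (b l - (G l).card)) with hB
  set V : Finset (α ⊕ ℕ) := Ω.disjSum (range (b m - (G m).card)) with hV
  have hBV : ∀ l ≤ m, B l ⊆ V := fun l hl =>
    disjSum_mono (hΩ l hl) (range_subset_range.2 ((h1 m le_rfl).2 l hl))
  have cV : V.card ≤ n := by
    have a1 := card_sdiff_add_card_eq_card (hΩ m le_rfl)
    have a2 := (h1 m le_rfl).1
    rw [hV, card_disjSum, card_range]; omega
  have cU : ∀ l j, l < j → j ≤ m → (B l ∪ B j).card = b j + e l j := by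
    intro l j hl hj
    have a1 : B l ∪ B j = (G l ∪ G j).disjSum (range (b j - (G j).card)) := by
      have := (h1 j hj).2 l hl.le
      ext (x | x) <;> simp [hB]
      omega
    have a2 := card_sdiff_add_card (G l) (G j)
    have a3 := he l j hl hj
    have a4 := (h1 j hj).1
    rw [a1, card_disjSum, card_range]; omega
  obtain ⟨g, hg⟩ : ∃ g : α ⊕ ℕ → Fin n, Set.InjOn g V := by
    refine ⟨fun x => if h : x ∈ V then Fin.castLE cV (V.equivFin ⟨x, h⟩) else ⟨0, hn0⟩, ?_⟩
    intro x hx y hy h
    simp only [dif_pos (mem_coe.1 hx), dif_pos (mem_coe.1 hy)] at h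
    exact congrArg Subtype.val (V.equivFin.injective (Fin.castLE_injective _ h))
  have cA : ∀ l j, l ≤ m → j ≤ m → (((B l).image g)ᶜ ∩ ((B j).image g)ᶜ).card + (B l ∪ B j).card = n := by
    intro l j hl hj
    rw [← compl_union, ← image_union, ← card_image_of_injOn (f := g) (s := B l ∪ B j)
      (hg.mono (coe_subset.2 (union_subset (hBV l hl) (hBV j hj)))), card_compl, Fintype.card_fin]
    have := card_le_univ ((B l ∪ B j).image g)
    rw [Fintype.card_fin] at this
    omega
  have key : ∀ i j : Fin (m + 1), i < j → ((B i).image g)ᶜ ≠ ((B j).image g)ᶜ := by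
    intro i j hij h
    have a1 := cA i j (by omega) (by omega)
    have a2 := cA j j (by omega) (by omega)
    rw [h, cU i j hij (by omega)] at a1
    have a3 := he1 i j hij
    have a4 := (h1 j (by omega)).1
    have a5 : (B j).card = b j := by
      rw [hB]; simp only; rw [card_disjSum, card_range]; omega
    rw [union_self, a5] at a2
    omega
  refine ⟨fun i => ((B i).image g)ᶜ, fun i j h => ?_, fun i j i' j' hij hij' h => ?_⟩
  · by_contra hne
    rcases lt_or_gt_of_ne hne with c | c
    · exact key i j c h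
    · exact key j i c h.symm
  · have a1 := cA i j (by omega) (by omega)
    have a2 := cA i' j' (by omega) (by omega)
    rw [cU i j hij (by omega)] at a1
    rw [cU i' j' hij' (by omega)] at a2
    obtain ⟨c1, c2⟩ := hinj i j i' j' hij hij' (by simp only at h; omega)
    exact ⟨Fin.ext c1, Fin.ext c2⟩

/-- Triangular numbers. -/
def tri : ℕ → ℕ
  | 0 => 0
  | j + 1 => tri j + j

theorem tri_mono : Monotone tri := monotone_nat_of_le_succ fun j => Nat.le_add_right _ _

theorem tri_eq (j : ℕ) : tri j = j.choose 2 := by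
  induction j with
  | zero => rfl
  | succ j ih => rw [tri, ih, Nat.choose_succ_succ' j 1]; simp [add_comm]

theorem tri_lt {j j' : ℕ} (h : j < j') : tri j + j ≤ tri j' := tri_mono (show j + 1 ≤ j' from h)

theorem simple (n m : ℕ) (hm : 1 ≤ m) (hn : tri (m + 2) ≤ n + 2) : Ex n (m + 1) := by
  have t1 : tri (m + 2) = tri m + m + (m + 1) := rfl
  refine pad n m m (fun l => range (m - l)) (fun j => if j = 0 then m else tri j + m - 1)
    (fun l j => j - l) (range m) (fun l _ => range_subset_range.2 (by omega)) (by simp)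
    (fun l j h1 h2 => ?_) (fun l j h => by omega) (by simp) (fun j hj => ?_)
    (fun l j l' j' h1 h2 h3 => ?_) (by simp only [if_neg (show m ≠ 0 by omega)]; omega) (by omega)
  · rw [card_sdiff_of_subset (range_subset_range.2 (by omega)), card_range, card_range]; omega
  · rw [sdiff_eq_empty_iff_subset.2 (range_subset_range.2 (by omega))]
    have : tri (j + 1) = tri j + j := rfl
    split_ifs <;> simp_all <;> omega
  · simp only [if_neg (show j ≠ 0 by omega), if_neg (show j' ≠ 0 by omega)] at h3
    rcases lt_trichotomy j j' with c | c | c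
    · have := tri_lt c; omega
    · subst c; omega
    · have := tri_lt c; omega

end Pool.Agent.H.MP_6ac4e5_co.A
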