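import Pool.Agent.H.MP_6ac4e5_co.A

/-! A construction with excess `O(q)` for up to `q ^ 2` sets, from lines of an affine plane. -/

namespace Pool.Agent.H.MP_6ac4e5_co.B

open Finset Pool.Agent.H.MP_6ac4e5_co.A

/-- Sizes of the nested decreasing part. -/
def ze (q l : ℕ) : ℕ := 2 * (16 * q - 1 - l)
/-- Number of columns born up to level `l`. -/
def P (q l : ℕ) : ℕ :=
  if l < 8 * q then 0 else if l < 16 * q then 8 * ((l - 8 * q) / 2) + 5 else l + 16 * q
/-- Number of active blocks. -/
def NB (q l : ℕ) : ℕ := if 16 * q ≤ l then (l + 16 * q) / q else 0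
/-- Slope. -/
def la (q j : ℕ) : ZMod q := ((j / q : ℕ) : ZMod q)
/-- Point of the line of row `j` in column `c`. -/
def ln (q j c : ℕ) : ZMod q := la q j * (c : ZMod q) + (j : ZMod q)
/-- Target sizes. -/
def bb (q j : ℕ) : ℕ :=
  if j < 16 * q then (if j % 2 = 0 then 32 * q - 2 + tri j else 32 * q - 3 + tri (j - 1))
  else 16 * q - 1 + tri j
/-- Target differences. -/
def ee (q l j : ℕ) : ℕ := if j < 16 * q then 2 * (j - l) else ze q l + P q l

theorem P_mono (q : ℕ) {l j : ℕ} (h : l ≤ j) : P q l ≤ P q j := by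
  unfold P; split_ifs <;> omega

theorem NB_mono (q : ℕ) {l j : ℕ} (h : l ≤ j) : NB q l ≤ NB q j := by
  unfold NB; split_ifs
  · exact Nat.div_le_div_right (by omega)
  · omega
  · exact Nat.zero_le _
  · exact le_rfl

theorem NB_le (q l : ℕ) : NB q l * q ≤ P q l := by
  unfold NB P; split_ifs <;> try omega
  exact Nat.div_mul_le_self _ _

theorem inj (q : ℕ) (hq : 2 ≤ q) (l j l' j' : ℕ) (h : l < j) (h' : l' < j')
    (e : bb q j + ee q l j = bb q j' + ee q l' j') : l = l' ∧ j = j' := by
  have rng : ∀ l j, l < j → 32 * q - 2 + tri (if j < 16 * q then 2 * (j / 2) else j) <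
      bb q j + ee q l j ∧ bb q j + ee q l j ≤
      32 * q - 2 + tri (if j < 16 * q then 2 * (j / 2) + 2 else j + 1) := by
    intro l j h
    unfold bb ee ze P
    by_cases c1 : j < 16 * q
    · simp only [if_pos c1]
      have t : tri (2 * (j / 2) + 2) = tri (2 * (j / 2)) + 2 * (j / 2) + (2 * (j / 2) + 1) := rfl
      by_cases c2 : j % 2 = 0
      · rw [if_pos c2, t, show 2 * (j / 2) = j by omega]; omega
      · rw [if_neg c2, t, show 2 * (j / 2) = j - 1 by omega]; omega
    · simp only [if_neg c1]
      have t : tri (j + 1) = tri j + j := rfl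
      split_ifs <;> omega
  have a1 := rng l j h
  have a2 := rng l' j' h'
  have a3 : (if j < 16 * q then 2 * (j / 2) else j) = (if j' < 16 * q then 2 * (j' / 2) else j') := by
    by_contra hne
    rcases lt_or_gt_of_ne hne with c | c
    · have := tri_mono (show (if j < 16 * q then 2 * (j / 2) + 2 else j + 1) ≤
        (if j' < 16 * q then 2 * (j' / 2) else j') by split_ifs at c ⊢ <;> omega)
      omega
    · have := tri_mono (show (if j' < 16 * q then 2 * (j' / 2) + 2 else j' + 1) ≤
        (if j < 16 * q then 2 * (j / 2) else j) by split_ifs at c ⊢ <;> omega)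
      omega
  clear a1 a2 rng
  by_cases c : j = j'
  · subst c
    refine ⟨?_, rfl⟩
    unfold ee ze P at e
    split_ifs at e <;> omega
  · exfalso
    unfold bb ee at e
    split_ifs at a3 e with c1 c2 c3 c4 c5 <;> try omega
    · rw [show j = j' - 1 by omega] at e; omega
    · rw [show j' = j - 1 by omega] at e; omega

variable (q m : ℕ) [Fact q.Prime]

/-- Points of ordinary columns. -/
def GA (l : ℕ) : Finset (ℕ × ZMod q) :=
  (range (P q l) ×ˢ univ).filter fun x => ¬ (x.1 / q < NB q l ∧ x.2 = ln q l x.1)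
/-- Points of the extra columns. -/
def GE (l : ℕ) : Finset (ℕ × ZMod q) := (range (NB q l) ×ˢ univ).filter fun x => x.2 ≠ la q l
/-- Elements removed only once. -/
def GF (l : ℕ) : Finset (ℕ × ℕ) := (range (P q l) ×ˢ range (m + 1)).filter fun x =>
  x.2 ≠ l ∧ 16 * q ≤ x.2 ∧ NB q x.2 ≤ x.1 / q ∧ x.1 < P q x.2
/-- All special elements of the set number `l`. -/
def G (l : ℕ) := (range (ze q l)).disjSum ((GA q l).disjSum ((GE q l).disjSum (GF q m l)))
/-- Removed points of ordinary columns. -/
def RA (j : ℕ) : Finset (ℕ × ZMod q) :=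
  ((range (P q j)).filter fun c => c / q < NB q j).image fun c => (c, ln q j c)
/-- Removed points of extra columns. -/
def RE (j : ℕ) : Finset (ℕ × ZMod q) := (range (NB q j)).image fun c => (c, la q j)
/-- Removed single-use elements. -/
def RF (j : ℕ) : Finset (ℕ × ℕ) :=
  ((range (P q j)).filter fun c => 16 * q ≤ j ∧ ¬ c / q < NB q j).image fun c => (c, j)

theorem card_sd {α β : Type} [DecidableEq α] [DecidableEq β] (s s' : Finset α) (t t' : Finset β) :
    (s.disjSum t \ s'.disjSum t').card = (s \ s').card + (t \ t').card := by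
  rw [← card_disjSum]; congr 1; ext (x | x) <;> simp

omit [Fact q.Prime] in
theorem cardR (j : ℕ) : (RA q j).card + (RF q j).card ≤ if 16 * q ≤ j then P q j else 0 := by
  refine (Nat.add_le_add card_image_le card_image_le).trans ?_
  split_ifs with h
  · simp only [h, true_and]
    rw [card_filter_add_card_filter_not, card_range]
  · simp [NB, h]

theorem meet {l j : ℕ} (h : l < j) (hj : j < q * q) :
    ((range (P q l)).filter fun c => c / q < NB q l ∧ ln q j c = ln q l c).card =
      ((range (NB q l)).filter fun _ => la q j ≠ la q l).card := by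
  have hq := (Fact.out : q.Prime).pos
  by_cases c : la q j = la q l
  · rw [filter_false_of_mem, filter_false_of_mem (by simp [c])]
    rintro x - ⟨-, e⟩
    rw [ln, ln, c, add_right_inj, ZMod.natCast_eq_natCast_iff'] at e
    rw [la, la, ZMod.natCast_eq_natCast_iff', Nat.mod_eq_of_lt ((Nat.div_lt_iff_lt_mul hq).2 hj),
      Nat.mod_eq_of_lt ((Nat.div_lt_iff_lt_mul hq).2 (h.trans hj))] at c
    have a1 := Nat.div_add_mod j q
    have a2 := Nat.div_add_mod l q
    rw [c, e] at a1
    omega
  · set x0 : ZMod q := ((l : ZMod q) - j) / (la q j - la q l) with hx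
    have hne : la q j - la q l ≠ 0 := sub_ne_zero.2 c
    have key : ∀ x : ℕ, ln q j x = ln q l x ↔ (x : ZMod q) = x0 := by
      intro x
      rw [hx, eq_div_iff hne, ln, ln]
      exact ⟨fun e => by linear_combination e, fun e => by linear_combination e⟩
    have hv := ZMod.val_lt x0
    refine card_nbij' (fun x => x / q) (fun b => q * b + x0.val) ?_ ?_ ?_ ?_
    · intro x hx
      simp only [coe_filter, mem_range, Set.mem_setOf_eq] at hx ⊢
      exact ⟨hx.2.1, c⟩
    · intro b hb
      simp only [coe_filter, mem_range, Set.mem_setOf_eq] at hb ⊢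
      have a1 := NB_le q l
      have a2 := Nat.mul_le_mul_right q (show b + 1 ≤ NB q l from hb.1)
      refine ⟨by nlinarith, ?_, (key _).2 (by simp)⟩
      rw [Nat.mul_add_div hq, Nat.div_eq_of_lt hv]; exact hb.1
    · intro x hx
      simp only [coe_filter, mem_range, Set.mem_setOf_eq] at hx
      simp only
      rw [← (key x).1 hx.2.2, ZMod.val_natCast, Nat.div_add_mod]
    · intro b _
      simp only
      rw [Nat.mul_add_div hq, Nat.div_eq_of_lt hv, add_zero]

theorem diff {l j : ℕ} (h : l < j) (hj : j ≤ m) (hm : m < q * q) :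
    (G q m l \ G q m j).card = ee q l j := by
  have p1 := P_mono q h.le
  have p2 := NB_mono q h.le
  have eA : GA q l \ GA q j = ((range (P q l)).filter fun c => c / q < NB q j ∧
      ¬ (c / q < NB q l ∧ ln q j c = ln q l c)).image fun c => (c, ln q j c) := by
    ext ⟨c, y⟩
    simp only [GA, mem_sdiff, mem_filter, mem_product, mem_range, mem_univ, and_true, mem_image,
      Prod.mk.injEq]
    constructor
    · rintro ⟨⟨a1, a2⟩, a3⟩
      have a4 : c / q < NB q j ∧ y = ln q j c := by
        by_contra hc; exact a3 ⟨by omega, hc⟩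
      exact ⟨c, ⟨a1, a4.1, a4.2 ▸ a2⟩, rfl, a4.2.symm⟩
    · rintro ⟨c', ⟨a1, a2, a3⟩, rfl, rfl⟩
      exact ⟨⟨a1, a3⟩, fun hc => hc.2 ⟨a2, rfl⟩⟩
  have eE : GE q l \ GE q j = ((range (NB q l)).filter fun _ => la q j ≠ la q l).image
      fun c => (c, la q j) := by
    ext ⟨c, y⟩
    simp only [GE, mem_sdiff, mem_filter, mem_product, mem_range, mem_univ, and_true, mem_image,
      Prod.mk.injEq]
    constructor
    · rintro ⟨⟨a1, a2⟩, a3⟩
      have a4 : y = la q j := by
        by_contra hc; exact a3 ⟨by omega, hc⟩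
      exact ⟨c, ⟨a1, a4 ▸ a2⟩, rfl, a4.symm⟩
    · rintro ⟨c', ⟨a1, a2⟩, rfl, rfl⟩
      exact ⟨⟨a1, a2⟩, fun hc => hc.2 rfl⟩
  have eF : GF q m l \ GF q m j = ((range (P q l)).filter fun c => 16 * q ≤ j ∧
      ¬ c / q < NB q j).image fun c => (c, j) := by
    ext ⟨c, y⟩
    simp only [GF, mem_sdiff, mem_filter, mem_product, mem_range, mem_image, Prod.mk.injEq]
    constructor
    · rintro ⟨⟨⟨a1, a2⟩, a3, a4, a5, a6⟩, a7⟩
      have a8 : y = j := by
        by_contra hc; exact a7 ⟨⟨by omega, a2⟩, hc, a4, a5, a6⟩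
      subst a8
      exact ⟨c, ⟨a1, a4, by omega⟩, rfl, rfl⟩
    · rintro ⟨c', ⟨a1, a2, a3⟩, rfl, rfl⟩
      exact ⟨⟨⟨a1, by omega⟩, by omega, a2, by omega, by omega⟩, fun hc => hc.2.1 rfl⟩
  have z1 : ze q j ≤ ze q l := by unfold ze; omega
  rw [G, G, card_sd, card_sd, card_sd, eA, eE, eF,
    card_image_of_injective _ (fun _ _ e => (Prod.ext_iff.1 e).1),
    card_image_of_injective _ (fun _ _ e => (Prod.ext_iff.1 e).1),
    card_image_of_injective _ (fun _ _ e => (Prod.ext_iff.1 e).1), ← meet q h (by omega),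
    card_sdiff_of_subset (range_subset_range.2 z1), card_range, card_range, ee]
  split_ifs with c
  · have n1 : NB q j = 0 := if_neg (by omega)
    have n2 : NB q l = 0 := by omega
    simp only [n1, n2, Nat.not_lt_zero, false_and, filter_false, card_empty,
      show ¬ 16 * q ≤ j by omega]
    unfold ze; omega
  · have a1 := card_filter_add_card_filter_not (s := range (P q l)) fun c => c / q < NB q j
    have a2 := card_filter_add_card_filter_not (s := (range (P q l)).filter fun c => c / q < NB q j)
      fun c => c / q < NB q l ∧ ln q j c = ln q l c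
    rw [filter_filter, filter_filter, filter_congr (q := fun c => c / q < NB q l ∧
      ln q j c = ln q l c) fun c _ => ⟨fun h => h.2, fun h => ⟨by omega, h⟩⟩] at a2
    simp only [show 16 * q ≤ j by omega, true_and]
    rw [card_range] at a1
    have : ze q j = 0 := by unfold ze; omega
    omega

theorem grow (j : ℕ) : (G q m (j + 1) \ G q m j).card ≤
    2 * ((P q (j + 1) - P q j) * q) + (NB q (j + 1) - NB q j) * q + NB q j +
      if 16 * q ≤ j then P q j else 0 := by
  have hq := (Fact.out : q.Prime).pos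
  have sA : GA q (j + 1) \ GA q j ⊆ (Ico (P q j) (P q (j + 1)) ×ˢ univ) ∪ RA q j := by
    rintro ⟨c, y⟩
    simp only [GA, RA, mem_sdiff, mem_filter, mem_product, mem_range, mem_univ, and_true,
      mem_image, Prod.mk.injEq, mem_union, mem_Ico]
    rintro ⟨⟨a1, -⟩, a3⟩
    by_cases hc : c < P q j
    · have a4 : c / q < NB q j ∧ y = ln q j c := by
        by_contra h; exact a3 ⟨hc, h⟩
      exact Or.inr ⟨c, ⟨hc, a4.1⟩, rfl, a4.2.symm⟩
    · exact Or.inl ⟨by omega, a1⟩
  have sE : GE q (j + 1) \ GE q j ⊆ (Ico (NB q j) (NB q (j + 1)) ×ˢ univ) ∪ RE q j := by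
    rintro ⟨c, y⟩
    simp only [GE, RE, mem_sdiff, mem_filter, mem_product, mem_range, mem_univ, and_true,
      mem_image, Prod.mk.injEq, mem_union, mem_Ico]
    rintro ⟨⟨a1, -⟩, a3⟩
    by_cases hc : c < NB q j
    · have a4 : y = la q j := by
        by_contra h; exact a3 ⟨hc, h⟩
      exact Or.inr ⟨c, hc, rfl, a4.symm⟩
    · exact Or.inl ⟨by omega, a1⟩
  have sF : GF q m (j + 1) \ GF q m j ⊆ ((Ico (P q j) (P q (j + 1)) ×ˢ range q).image
      fun x => (x.1, x.1 + x.2 - 16 * q)) ∪ RF q j := by
    rintro ⟨c, y⟩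
    simp only [GF, RF, mem_sdiff, mem_filter, mem_product, mem_range, mem_image, Prod.mk.injEq,
      mem_union, mem_Ico]
    rintro ⟨⟨⟨a1, a2⟩, a3, a4, a5, a6⟩, a7⟩
    by_cases hc : c < P q j
    · have a8 : y = j := by
        by_contra h; exact a7 ⟨⟨hc, a2⟩, h, a4, a5, a6⟩
      subst a8
      exact Or.inr ⟨c, ⟨hc, a4, by omega⟩, rfl, rfl⟩
    · have b1 : P q y = y + 16 * q := by unfold P; split_ifs <;> omega
      have b2 : NB q y = (y + 16 * q) / q := if_pos a4
      have b3 : y + 16 * q < (c / q + 1) * q := (Nat.div_lt_iff_lt_mul hq).1 (by omega)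
      have b4 := Nat.div_mul_le_self c q
      refine Or.inl ⟨(c, y + 16 * q - c), ⟨⟨by omega, a1⟩, ?_⟩, rfl, ?_⟩
      · simp only; rw [add_mul] at b3; omega
      · simp only; omega
  have a1 := (card_le_card sA).trans (card_union_le _ _)
  have a2 := (card_le_card sE).trans (card_union_le _ _)
  have a3 := (card_le_card sF).trans ((card_union_le _ _).trans
    (Nat.add_le_add_right card_image_le _))
  have a4 := cardR q j
  have a5 : (RE q j).card ≤ NB q j := card_image_le.trans (card_range _).le
  simp only [card_product, Nat.card_Ico, card_univ, ZMod.card, card_range] at a1 a2 a3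
  rw [G, G, card_sd, card_sd, card_sd,
    sdiff_eq_empty_iff_subset.2 (range_subset_range.2 (by unfold ze; omega)), card_empty]
  omega

theorem main (n : ℕ) (hm : m < q * q) (hn : tri (m + 1) + 65 * q + 16 ≤ n) : Ex n (m + 1) := by
  have hq := (Fact.out : q.Prime).two_le
  have nb : ∀ j ≤ m, NB q j ≤ q + 16 := by
    intro j hj
    unfold NB
    split_ifs
    · rw [Nat.add_mul_div_right _ _ (by omega)]
      have := (Nat.div_lt_iff_lt_mul (show 0 < q by omega)).2 (show j < q * q by omega)
      omega
    · omega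
  refine pad n m (32 * q + (if 16 * q ≤ m then P q m else 0) + NB q m) (G q m) (bb q) (ee q)
    ((range (32 * q)).disjSum ((GA q m ∪ RA q m).disjSum ((GE q m ∪ RE q m).disjSum
      (GF q m m ∪ RF q m)))) (fun l hl => ?_) ?_ (fun l j h hj => diff q m h hj hm)
    (fun l j h => ?_) ?_ (fun j hj => ?_) (inj q hq) ?_ (by omega)
  · have p1 := P_mono q hl
    have p2 := NB_mono q hl
    refine disjSum_mono (range_subset_range.2 (by unfold ze; omega)) (disjSum_mono ?_
      (disjSum_mono ?_ ?_))
    · rintro ⟨c, y⟩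
      simp only [GA, RA, mem_filter, mem_product, mem_range, mem_univ, and_true,
        mem_image, Prod.mk.injEq, mem_union]
      rintro ⟨a1, -⟩
      by_cases hc : c / q < NB q m ∧ y = ln q m c
      · exact Or.inr ⟨c, ⟨by omega, hc.1⟩, rfl, hc.2.symm⟩
      · exact Or.inl ⟨by omega, hc⟩
    · rintro ⟨c, y⟩
      simp only [GE, RE, mem_filter, mem_product, mem_range, mem_univ, and_true,
        mem_image, Prod.mk.injEq, mem_union]
      rintro ⟨a1, -⟩
      by_cases hc : y = la q m
      · exact Or.inr ⟨c, by omega, rfl, hc.symm⟩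
      · exact Or.inl ⟨by omega, hc⟩
    · rintro ⟨c, y⟩
      simp only [GF, RF, mem_filter, mem_product, mem_range, mem_image, Prod.mk.injEq, mem_union]
      rintro ⟨⟨a1, a2⟩, a3, a4, a5, a6⟩
      by_cases hc : y = m
      · subst hc
        exact Or.inr ⟨c, ⟨a6, a4, by omega⟩, rfl, rfl⟩
      · exact Or.inl ⟨⟨by omega, a2⟩, hc, a4, a5, a6⟩
  · have u : ∀ {α : Type} [DecidableEq α] (s t : Finset α), ((s ∪ t) \ s).card ≤ t.card :=
      fun s t => card_le_card (by rw [union_sdiff_left]; exact sdiff_subset)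
    have a1 := u (GA q m) (RA q m)
    have a2 := u (GE q m) (RE q m)
    have a3 := u (GF q m m) (RF q m)
    have a4 := cardR q m
    have a5 : (RE q m).card ≤ NB q m := card_image_le.trans (card_range _).le
    have a6 : (range (32 * q) \ range (ze q m)).card ≤ 32 * q :=
      (card_le_card sdiff_subset).trans (card_range _).le
    rw [G, card_sd, card_sd, card_sd]
    omega
  · unfold ee ze P; split_ifs <;> omega
  · have a1 : P q 0 = 0 := if_pos (by omega)
    have a2 : NB q 0 = 0 := if_neg (by omega)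
    simp only [G, GA, GE, GF, a1, a2, card_disjSum, card_range, range_zero, empty_product,
      filter_empty, card_empty, bb, ze, if_pos (show 0 < 16 * q by omega), if_true]
    omega
  · refine (Nat.add_le_add_right (grow q m j) _).trans ?_
    have a1 := nb j hj.le
    have t1 : tri (j + 1) = tri j + j := rfl
    by_cases c1 : 16 * q ≤ j
    · have b1 : P q (j + 1) - P q j = 1 := by unfold P; split_ifs <;> omega
      have b2 : NB q (j + 1) - NB q j ≤ 1 := by
        rw [NB, NB, if_pos c1, if_pos (by omega), show j + 1 + 16 * q = j + 16 * q + 1 by ring,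
          Nat.succ_div]
        split_ifs <;> omega
      have b3 := Nat.mul_le_mul_right q b2
      rw [b1, if_pos c1, bb, bb, ee, if_neg (by omega), if_neg (by omega), if_neg (by omega)]
      omega
    · have n1 : NB q j = 0 := if_neg c1
      rw [if_neg c1, n1]
      obtain rfl | ⟨i, rfl⟩ : j = 0 ∨ ∃ i, j = i + 1 := by cases j <;> simp
      · have b1 : P q 1 = 0 := if_pos (by omega)
        have b2 : NB q 1 = 0 := if_neg (by omega)
        simp only [zero_add, b1, b2, bb, ee, if_pos (show 0 < 16 * q by omega),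
          if_pos (show 1 < 16 * q by omega)]
        simp [tri]; omega
      have t2 : tri (i + 1) = tri i + i := rfl
      by_cases c2 : i + 1 + 1 = 16 * q
      · have b1 : P q (i + 1 + 1) - P q (i + 1) = 3 := by unfold P; split_ifs <;> omega
        have b2 : NB q (i + 1 + 1) = 32 := by
          rw [NB, if_pos (by omega), c2, show 16 * q + 16 * q = 32 * q by ring,
            Nat.mul_div_cancel _ (by omega)]
        rw [b1, b2]
        unfold bb ee ze P
        simp only [Nat.add_sub_cancel]
        split_ifs <;> omega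
      · have b2 : NB q (i + 1 + 1) = 0 := if_neg (by omega)
        have b1 : P q (i + 1 + 1) - P q (i + 1) ≤ if i % 2 = 0 ∧ 8 * q ≤ i + 2 then 8 else 0 := by
          unfold P; split_ifs <;> omega
        have b3 := Nat.mul_le_mul_right q b1
        rw [b2]
        unfold bb ee
        simp only [Nat.add_sub_cancel]
        split_ifs at b3 ⊢ <;> omega
  · have a1 := nb m le_rfl
    have t1 : tri (m + 1) = tri m + m := rfl
    have t2 : tri (m - 1) ≤ tri m := tri_mono (by omega)
    unfold bb P
    split_ifs <;> omega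

end Pool.Agent.H.MP_6ac4e5_co.B
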